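import Pool.Agent.W510.CG.Stm

/-!
# CG-EXCH: exchange of two points by a star
-/

set_option autoImplicit false

namespace Pool.Agent.W395.CG

open Pool.Agent.W510.CG

theorem main (h1 : S_HTF) (h2 : S_R1) : S_EXCH := by
  intro M V B br G H hT hGH u p A a1 a2 hA hAp ha1 ha2 ha12 hZ C hC hCi
  have key : ∀ n : ℕ, ∀ E : Set M, E.Finite → E ⊆ C ∪ A → {x | x ∈ E ∧ br u x ≠ p}.ncard = n →
      Z br H E := by
    intro n
    induction n using Nat.strong_induction_on with
    | _ n ih =>
      intro E hE hEC hn
      set E1 : Set M := {x | x ∈ E ∧ br u x ≠ p} with hE1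
      have hE1E : E1 ⊆ E := fun x hx => hx.1
      have hE1f : E1.Finite := hE.subset hE1E
      have hE1C : E1 ⊆ C := by
        intro x hx
        rcases hEC hx.1 with h | h
        · exact h
        · exact absurd (hAp x h) hx.2
      by_cases hn2 : n ≤ 2
      · have hne : a1 ≠ a2 := fun h => ha12 (by rw [h])
        have hcard : E1.encard ≤ ({a1, a2} : Set M).encard := by
          rw [Set.encard_pair hne, ← hE1f.cast_ncard_eq, hn]
          exact_mod_cast hn2
        have : Nonempty M := ⟨a1⟩
        obtain ⟨f, hf1, hf2⟩ := hE1f.exists_injOn_of_encard_le hcard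
        have hfm : ∀ x ∈ E1, f x = a1 ∨ f x = a2 := fun x hx => hf1 hx
        obtain ⟨g, hg, hg1, hg2⟩ := h1 M V B br G hT u p E1 f hE1f (fun x hx => hx.2)
          (hCi.mono hE1C) (by
            intro x hx
            rcases hfm x hx with h | h
            · rw [h]; exact ha1
            · rw [h]; exact ha2) (by
            intro x hx y hy hxy
            refine hf2 hx hy ?_
            simp only at hxy
            rcases hfm x hx with h | h <;> rcases hfm y hy with h' | h'
            · rw [h, h']
            · rw [h, h'] at hxy; exact absurd hxy ha12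
            · rw [h, h'] at hxy; exact absurd hxy.symm ha12
            · rw [h, h'])
        rw [← Z_image_iff (hGH hg)]
        refine hZ _ (hE.image _) ?_
        rintro _ ⟨x, hx, rfl⟩
        by_cases hxp : br u x = p
        · rw [hg1 x hxp]
          rcases hEC hx with h | h
          · exact absurd hxp (hC x h)
          · exact Or.inr (Or.inr h)
        · have hx1 : x ∈ E1 := ⟨hx, hxp⟩
          rw [hg2 x hx1]
          rcases hfm x hx1 with h | h
          · exact Or.inl h
          · exact Or.inr (Or.inl h)
      · have h3 : 2 < E1.ncard := by omega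
        obtain ⟨b0, b1, b2, hb0, hb1, hb2, h01, h02, h12⟩ := (Set.two_lt_ncard_iff hE1f).1 h3
        obtain ⟨a, haA, haE⟩ := hA.exists_notMem_finite hE
        have hap := hAp a haA
        have hstep : ∀ b ∈ E1, Z br H (insert a E \ {b}) := by
          intro b hb
          have hba : b ≠ a := fun h => hb.2 (by rw [h]; exact hap)
          have hsub : {x | x ∈ insert a E \ {b} ∧ br u x ≠ p} ⊂ E1 := by
            refine ⟨?_, ?_⟩
            · rintro x ⟨⟨hx1, -⟩, hx3⟩
              rcases hx1 with h | h
              · exact absurd (by rw [h]; exact hap) hx3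
              · exact ⟨h, hx3⟩
            · intro hsup
              exact (hsup hb).1.2 rfl
          refine ih _ ?_ (insert a E \ {b}) ((hE.insert a).subset Set.sdiff_subset) ?_ rfl
          · rw [← hn]
            exact Set.ncard_lt_ncard hsub hE1f
          · rintro x ⟨hx1, -⟩
            rcases hx1 with h | h
            · rw [h]; exact Or.inr haA
            · exact hEC h
        have hfin := h2 M V B br G H hT hGH (insert a E) b0 b1 b2 (hE.insert a)
          (Or.inr hb0.1) (Or.inr hb1.1) (Or.inr hb2.1) h01 h02 h12
          (hstep b0 hb0) (hstep b1 hb1) (hstep b2 hb2) a (Or.inl rfl)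
        rwa [Set.insert_sdiff_self_of_notMem haE] at hfin
  intro E hE hEC
  exact key _ E hE hEC rfl

end Pool.Agent.W395.CG
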